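import Mathlib

/-!
# Cohen forcings of strong Fraisse classes need not be forcing equivalent

For every uncountable set `X` there are non-trivial strong Fraisse classes `K₀`, `K₁` with at most
`|X|` isomorphism types such that the Boolean completions of `Cohen_X(K₀)` and `Cohen_X(K₁)` are
not isomorphic: the first one has an uncountable antichain, the second one has none.
-/

namespace Pool.Agent.Results.MP_01c350_lc.UncountableCounterexample

open FirstOrder FirstOrder.Language

/-- a class of `L`-structures -/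
abbrev StrClass (L : FirstOrder.Language.{0, 0}) : Type 1 := ∀ A : Type, L.Structure A → Prop

/-- `K` is a strong Fraisse class of finite `L`-structures: it is nonempty, consists of finite
structures, is closed under isomorphic copies and substructures (that is: under structures that
embed in a member), and has joint embedding and strong (disjoint) amalgamation. -/
structure StrongFraisse {L : FirstOrder.Language.{0, 0}} (K : StrClass L) : Prop where
  nonempty : ∃ (A : Type) (SA : L.Structure A), K A SA
  finite : ∀ (A : Type) [SA : L.Structure A], K A SA → Finite A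
  hereditary : ∀ (A B : Type) [SA : L.Structure A] [SB : L.Structure B],
    K B SB → Nonempty (A ↪[L] B) → K A SA
  joint : ∀ (A B : Type) [SA : L.Structure A] [SB : L.Structure B], K A SA → K B SB →
    ∃ (C : Type) (SC : L.Structure C), K C SC ∧ Nonempty (A ↪[L] C) ∧ Nonempty (B ↪[L] C)
  amalg : ∀ (A B C : Type) [SA : L.Structure A] [SB : L.Structure B] [SC : L.Structure C],
    K A SA → K B SB → K C SC → ∀ (f : A ↪[L] B) (g : A ↪[L] C),
      ∃ (D : Type) (SD : L.Structure D) (f' : B ↪[L] D) (g' : C ↪[L] D), K D SD ∧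
        (∀ a, f' (f a) = g' (g a)) ∧ ∀ b c, f' b = g' c → ∃ a, f a = b ∧ g a = c

/-- `ψ` is a literal: an atomic formula or the negation of one -/
def IsLiteral {L : FirstOrder.Language.{0, 0}} {n : ℕ} (ψ : L.Formula (Fin n)) : Prop :=
  ∃ φ : L.Formula (Fin n), BoundedFormula.IsAtomic φ ∧ (ψ = φ ∨ ψ = φ.not)

/-- `K` is trivial: every literal holds on all non-redundant tuples of all members, or fails on
all non-redundant tuples of all members -/
def IsTrivial {L : FirstOrder.Language.{0, 0}} (K : StrClass L) : Prop :=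
  ∀ (n : ℕ) (ψ : L.Formula (Fin n)), IsLiteral ψ →
    (∀ (A : Type) [SA : L.Structure A], K A SA → ∀ v : Fin n → A, Function.Injective v →
      ψ.Realize v) ∨
    (∀ (A : Type) [SA : L.Structure A], K A SA → ∀ v : Fin n → A, Function.Injective v →
      ψ.not.Realize v)

/-- `K` has at most `|X|` isomorphism types: there is a family of structures indexed by `X` such
that every member of `K` is isomorphic to one in the family -/
def FewTypes {L : FirstOrder.Language.{0, 0}} (K : StrClass L) (X : Type) : Prop :=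
  ∃ (F : X → Type) (_S : ∀ x, L.Structure (F x)),
    ∀ (A : Type) [SA : L.Structure A], K A SA → ∃ x, Nonempty (A ≃[L] F x)

/-- the conditions of `Cohen_X(K)`: the structures in `K` whose underlying set is a finite subset
of `X` -/
structure Cohen {L : FirstOrder.Language.{0, 0}} (X : Type) (K : StrClass L) where
  carrier : Finset X
  str : L.Structure {x // x ∈ carrier}
  mem : K {x // x ∈ carrier} str

instance {L : FirstOrder.Language.{0, 0}} {X : Type} {K : StrClass L} (p : Cohen X K) :
    L.Structure {x // x ∈ p.carrier} := p.str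

/-- `p ≤ q` (`p` is stronger than `q`) when `q` is a substructure of `p`: the underlying set of `q`
is contained in that of `p`, and the inclusion is an embedding of structures. -/
instance {L : FirstOrder.Language.{0, 0}} {X : Type} {K : StrClass L} : Preorder (Cohen X K) where
  le p q := ∃ f : {x // x ∈ q.carrier} ↪[L] {x // x ∈ p.carrier}, ∀ a, (f a : X) = (a : X)
  le_refl p := ⟨Embedding.refl L _, fun _ => rfl⟩
  le_trans p q r := by
    rintro ⟨f, hf⟩ ⟨g, hg⟩
    exact ⟨f.comp g, fun a => (hf (g a)).trans (hg a)⟩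

/-- the Boolean completion `RO(P)` of a forcing notion `P` (where `p ≤ q` means that `p` is
stronger than `q`): the Boolean algebra of all regular open subsets of `P`, the open sets being
the downward closed sets -/
abbrev RO (P : Type) [Preorder P] : Type := Heyting.Regular (LowerSet P)

/-- two forcing notions are forcing equivalent if their Boolean completions are isomorphic -/
def ForcingEquivalent (P Q : Type) [Preorder P] [Preorder Q] : Prop :=
  Nonempty (RO P ≃o RO Q)

/-! ### Antichains -/

section Antichains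

variable {P : Type} [Preorder P]

/-- an uncountable family of pairwise incompatible conditions -/
def HasBigAntichain (P : Type) [Preorder P] : Prop :=
  ∃ (I : Type) (p : I → P), Uncountable I ∧ ∀ i j, i ≠ j → ¬ ∃ r, r ≤ p i ∧ r ≤ p j

/-- the same for a Boolean algebra -/
def HasBigDisjoint (B : Type) [BooleanAlgebra B] : Prop :=
  ∃ (I : Type) (b : I → B), Uncountable I ∧ (∀ i, b i ≠ ⊥) ∧ ∀ i j, i ≠ j → Disjoint (b i) (b j)

theorem bigDisjoint_of_bigAntichain (h : HasBigAntichain P) : HasBigDisjoint (RO P) := by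
  obtain ⟨I, p, hI, hp⟩ := h
  refine ⟨I, fun i => Heyting.Regular.toRegular (LowerSet.Iic (p i)), hI, ?_, ?_⟩
  · intro i hi
    have h1 := congrArg (fun z : RO P => (z : LowerSet P)) hi
    change (LowerSet.Iic (p i))ᶜᶜ = ⊥ at h1
    have h2 : LowerSet.Iic (p i) ≤ ⊥ := h1 ▸ le_compl_compl
    have h3 : p i ∈ LowerSet.Iic (p i) := LowerSet.mem_Iic_iff.mpr le_rfl
    exact LowerSet.notMem_bot (h2 h3)
  · intro i j hij
    have h0 : Disjoint (LowerSet.Iic (p i)) (LowerSet.Iic (p j)) := by
      rw [disjoint_iff_inf_le]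
      intro r hr
      exact absurd ⟨r, LowerSet.mem_Iic_iff.mp hr.1, LowerSet.mem_Iic_iff.mp hr.2⟩ (hp i j hij)
    have h1 : Disjoint ((LowerSet.Iic (p i))ᶜᶜ) ((LowerSet.Iic (p j))ᶜᶜ) := by
      rw [disjoint_compl_compl_left_iff, disjoint_compl_compl_right_iff]
      exact h0
    rw [disjoint_iff] at h1 ⊢
    apply Heyting.Regular.coe_injective
    exact h1

theorem bigAntichain_of_bigDisjoint (h : HasBigDisjoint (RO P)) : HasBigAntichain P := by
  obtain ⟨I, b, hI, hb, hd⟩ := h
  have h1 : ∀ i, ∃ q : P, q ∈ ((b i : LowerSet P)) := by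
    intro i
    by_contra hcon
    push Not at hcon
    apply hb i
    apply Heyting.Regular.coe_injective
    rw [Heyting.Regular.coe_bot]
    ext q
    exact ⟨fun hq => absurd hq (hcon q), fun hq => absurd hq (LowerSet.notMem_bot)⟩
  choose q hq using h1
  refine ⟨I, q, hI, ?_⟩
  rintro i j hij ⟨r, hr1, hr2⟩
  have h2 := hd i j hij
  rw [disjoint_iff] at h2
  have h3 := congrArg (fun z : RO P => (z : LowerSet P)) h2
  change (b i : LowerSet P) ⊓ (b j : LowerSet P) = ⊥ at h3
  have h4 : r ∈ ((b i : LowerSet P) ⊓ (b j : LowerSet P)) :=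
    ⟨(b i : LowerSet P).lower hr1 (hq i), (b j : LowerSet P).lower hr2 (hq j)⟩
  rw [h3] at h4
  exact LowerSet.notMem_bot h4

theorem bigDisjoint_iso {B C : Type} [BooleanAlgebra B] [BooleanAlgebra C] (e : B ≃o C)
    (h : HasBigDisjoint B) : HasBigDisjoint C := by
  obtain ⟨I, b, hI, hb, hd⟩ := h
  refine ⟨I, fun i => e (b i), hI, ?_, ?_⟩
  · intro i hi
    rw [← e.map_bot] at hi
    exact hb i (e.injective hi)
  · intro i j hij
    exact (hd i j hij).map_orderIso e

end Antichains

/-! ### Colour classes -/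

/-- relation symbols: one unary predicate for each colour -/
inductive ColRel (C : Type) : ℕ → Type
  | col : C → ColRel C 1

/-- the language with a unary predicate for each colour -/
def LC (C : Type) : FirstOrder.Language.{0, 0} := ⟨fun _ => Empty, ColRel C⟩

instance (C : Type) : (LC C).IsRelational := fun n => by
  change IsEmpty Empty
  infer_instance

/-- the structure given by a colouring -/
@[reducible] def ofCol {C A : Type} (f : A → C) : (LC C).Structure A where
  funMap := fun {_} g _ => Empty.elim g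
  RelMap := fun {_} r x =>
    match r, x with
    | ColRel.col c, x => f (x 0) = c

/-- `f` is the colouring of the structure -/
def IsCol {C A : Type} (S : (LC C).Structure A) (f : A → C) : Prop :=
  ∀ (c : C) (x : Fin 1 → A), S.RelMap (ColRel.col c : (LC C).Relations 1) x ↔ f (x 0) = c

/-- finite structures in which each point has exactly one colour -/
def KC (C : Type) : StrClass (LC C) := fun A S => Finite A ∧ ∃ f : A → C, IsCol S f

theorem isCol_ofCol {C A : Type} (f : A → C) : IsCol (ofCol f) f := fun _ _ => Iff.rfl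

theorem isCol_unique {C A : Type} {S : (LC C).Structure A} {f g : A → C} (hf : IsCol S f)
    (hg : IsCol S g) : f = g := by
  funext a
  have h := (hf (f a) (fun _ => a)).mpr rfl
  exact ((hg (f a) (fun _ => a)).mp h).symm

/-- an embedding from a colour-preserving injection -/
def mkEmb {C A B : Type} [SA : (LC C).Structure A] [SB : (LC C).Structure B] {f : A → C}
    {g : B → C} (hf : IsCol SA f) (hg : IsCol SB g) (e : A ↪ B) (he : ∀ a, g (e a) = f a) :
    A ↪[LC C] B where
  toEmbedding := e
  map_fun' := fun {_} h _ => Empty.elim h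
  map_rel' := by
    intro n r x
    cases r with
    | col c =>
      refine (hg c (e ∘ x)).trans (Iff.trans ?_ (hf c x).symm)
      change g (e (x 0)) = c ↔ _
      rw [he]

theorem emb_col {C A B : Type} [SA : (LC C).Structure A] [SB : (LC C).Structure B] {f : A → C}
    {g : B → C} (hf : IsCol SA f) (hg : IsCol SB g) (e : A ↪[LC C] B) (a : A) :
    g (e a) = f a := by
  have h1 := (hf (f a) (fun _ => a)).mpr rfl
  have h2 := (e.map_rel (ColRel.col (f a) : (LC C).Relations 1) (fun _ => a)).mpr h1
  exact (hg (f a) _).mp h2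

theorem strongFraisse_KC (C : Type) : StrongFraisse (KC C) where
  nonempty := ⟨Empty, ofCol Empty.elim, inferInstance, _, isCol_ofCol _⟩
  finite := fun A _ h => h.1
  hereditary := by
    intro A B SA SB hB hAB
    obtain ⟨e⟩ := hAB
    obtain ⟨hfin, g, hg⟩ := hB
    refine ⟨Finite.of_injective e e.injective, fun a => g (e a), ?_⟩
    intro c x
    have h1 := e.map_rel (ColRel.col c : (LC C).Relations 1) x
    exact h1.symm.trans (hg c _)
  joint := by
    intro A B SA SB hA hB
    obtain ⟨hfA, f, hf⟩ := hA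
    obtain ⟨hfB, g, hg⟩ := hB
    let S : (LC C).Structure (A ⊕ B) := ofCol (Sum.elim f g)
    refine ⟨A ⊕ B, S, ⟨inferInstance, _, isCol_ofCol _⟩,
      ⟨mkEmb hf (isCol_ofCol (Sum.elim f g)) ⟨Sum.inl, Sum.inl_injective⟩ fun _ => rfl⟩,
      ⟨mkEmb hg (isCol_ofCol (Sum.elim f g)) ⟨Sum.inr, Sum.inr_injective⟩ fun _ => rfl⟩⟩
  amalg := by
    classical
    intro A B D SA SB SD hA hB hD e1 e2
    obtain ⟨hfA, f, hf⟩ := hA
    obtain ⟨hfB, g, hg⟩ := hB
    obtain ⟨hfD, h, hh⟩ := hD
    let E : Type := B ⊕ {d : D // d ∉ Set.range e2}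
    let col : E → C := Sum.elim g fun d => h d.1
    let S : (LC C).Structure E := ofCol col
    let i2 : D → E := fun d => if hd : d ∈ Set.range e2 then Sum.inl (e1 hd.choose) else
      Sum.inr ⟨d, hd⟩
    have hi2 : ∀ a, i2 (e2 a) = Sum.inl (e1 a) := by
      intro a
      have hd : e2 a ∈ Set.range e2 := ⟨a, rfl⟩
      simp only [i2, dif_pos hd]
      rw [e2.injective hd.choose_spec]
    have hi2' : ∀ d, (hd : d ∉ Set.range e2) → i2 d = Sum.inr ⟨d, hd⟩ := by
      intro d hd
      simp only [i2, dif_neg hd]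
    have hinj : Function.Injective i2 := by
      intro d d' hdd
      by_cases h1 : d ∈ Set.range e2
      · obtain ⟨a, rfl⟩ := h1
        by_cases h2 : d' ∈ Set.range e2
        · obtain ⟨a', rfl⟩ := h2
          rw [hi2, hi2] at hdd
          rw [e1.injective (Sum.inl_injective hdd)]
        · rw [hi2, hi2' d' h2] at hdd
          cases hdd
      · by_cases h2 : d' ∈ Set.range e2
        · obtain ⟨a', rfl⟩ := h2
          rw [hi2, hi2' d h1] at hdd
          cases hdd
        · rw [hi2' d h1, hi2' d' h2] at hdd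
          exact congrArg Subtype.val (Sum.inr_injective hdd)
    refine ⟨E, S, mkEmb hg (isCol_ofCol col) ⟨Sum.inl, Sum.inl_injective⟩ fun _ => rfl,
      mkEmb hh (isCol_ofCol col) ⟨i2, hinj⟩ ?_, ⟨inferInstance, _, isCol_ofCol _⟩, ?_, ?_⟩
    · intro d
      change col (i2 d) = h d
      by_cases h1 : d ∈ Set.range e2
      · obtain ⟨a, rfl⟩ := h1
        rw [hi2]
        change g (e1 a) = h (e2 a)
        rw [emb_col hf hg, emb_col hf hh]
      · rw [hi2' d h1]
        rfl
    · intro a
      exact (hi2 a).symm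
    · intro b d hbd
      change Sum.inl b = i2 d at hbd
      by_cases h1 : d ∈ Set.range e2
      · obtain ⟨a, rfl⟩ := h1
        rw [hi2] at hbd
        exact ⟨a, (Sum.inl_injective hbd).symm, rfl⟩
      · rw [hi2' d h1] at hbd
        cases hbd

theorem nontrivial_KC (C : Type) (c d : C) (hcd : c ≠ d) : ¬ IsTrivial (KC C) := by
  intro h
  let ψ : (LC C).Formula (Fin 1) :=
    Relations.formula (L := LC C) (n := 1) (ColRel.col c) fun i => Term.var i
  have hψ : ∀ (b : C) (v : Fin 1 → Unit),
      @Formula.Realize (LC C) Unit (ofCol fun _ => b) _ ψ v ↔ b = c := by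
    intro b v
    let _i : (LC C).Structure Unit := ofCol fun _ => b
    exact Formula.realize_rel
  have hlit : IsLiteral ψ := ⟨ψ, BoundedFormula.IsAtomic.rel _ _, Or.inl rfl⟩
  rcases h 1 ψ hlit with h1 | h1
  · have := @h1 Unit (ofCol fun _ => d) ⟨inferInstance, _, isCol_ofCol _⟩ (fun _ => ())
      (fun i j _ => Subsingleton.elim _ _)
    exact hcd ((hψ d _).mp this).symm
  · have h1' := @h1 Unit (ofCol fun _ => c) ⟨inferInstance, _, isCol_ofCol _⟩ (fun _ => ())
      (fun i j _ => Subsingleton.elim _ _)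
    have h2 := (hψ c (fun _ => ())).mpr rfl
    exact h1' h2

theorem fewTypes_KC (C X : Type) (s : X → List C) (hs : Function.Surjective s) :
    FewTypes (KC C) X := by
  refine ⟨fun x => Fin (s x).length, fun x => ofCol fun i => (s x).get i, ?_⟩
  intro A SA hA
  obtain ⟨hfin, f, hf⟩ := hA
  obtain ⟨n, ⟨e⟩⟩ := Finite.exists_equiv_fin A
  obtain ⟨x, hx⟩ := hs (List.ofFn (f ∘ e.symm))
  have hlen : n = (s x).length := by rw [hx, List.length_ofFn]
  let _i : (LC C).Structure (Fin (s x).length) := ofCol fun i => (s x).get i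
  let e' : A ≃ Fin (s x).length := e.trans (finCongr hlen)
  have hcol : ∀ a, (s x).get (e' a) = f a := by
    intro a
    simp only [e', Equiv.trans_apply, finCongr_apply, List.get_eq_getElem, Fin.val_cast]
    simp only [hx]
    simp
  refine ⟨x, ⟨?_⟩⟩
  exact
    { toEquiv := e'
      map_fun' := fun {_} g _ => Empty.elim g
      map_rel' := by
        intro n r y
        cases r with
        | col c =>
          refine Iff.trans ?_ (hf c y).symm
          change (s x).get (e' (y 0)) = c ↔ _
          rw [hcol] }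

theorem exists_surj_list (C X : Type) [Infinite X] (h : Cardinal.mk C ≤ Cardinal.mk X) [Nonempty C] :
    ∃ s : X → List C, Function.Surjective s := by
  have h1 : Cardinal.mk (List C) ≤ Cardinal.mk X := by
    refine (Cardinal.mk_list_le_max C).trans ?_
    exact max_le (Cardinal.aleph0_le_mk X) h
  obtain ⟨f⟩ := (Cardinal.le_def _ _).mp h1
  exact ⟨Function.invFun f, Function.invFun_surjective f.injective⟩

/-! ### The antichain for the class with `|X|` colours -/

/-- the condition with underlying set `{x0}`, the only point having colour `c` -/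
def onePt {X : Type} (x0 c : X) : Cohen X (KC X) :=
  ⟨{x0}, ofCol fun _ => c, inferInstance, _, isCol_ofCol _⟩

theorem onePt_col {X : Type} (x0 c : X) : IsCol (onePt x0 c).str fun _ => c :=
  fun _ _ => Iff.rfl

theorem bigAntichain_KC (X : Type) [Uncountable X] : HasBigAntichain (Cohen X (KC X)) := by
  have : Nonempty X := inferInstance
  obtain ⟨x0⟩ := this
  refine ⟨X, onePt x0, inferInstance, ?_⟩
  rintro c d hcd ⟨r, ⟨f, hf⟩, ⟨g, hg⟩⟩
  obtain ⟨hfin, col, hcol⟩ := r.mem
  have h0 : x0 ∈ ({x0} : Finset X) := Finset.mem_singleton_self _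
  have h1 : col (f ⟨x0, h0⟩) = c := emb_col (onePt_col x0 c) hcol f ⟨x0, h0⟩
  have h2 : col (g ⟨x0, h0⟩) = d := emb_col (onePt_col x0 d) hcol g ⟨x0, h0⟩
  have h3 : f ⟨x0, h0⟩ = g ⟨x0, h0⟩ := Subtype.ext ((hf _).trans (hg _).symm)
  rw [h3, h2] at h1
  exact hcd h1.symm

/-! ### The countable chain condition for two colours -/

theorem finite_of_conflict {X : Type} (n : ℕ) : ∀ T : Set (Finset (X × Bool)),
    (∀ s ∈ T, s.card ≤ n) → (∀ s ∈ T, ∀ x b, (x, b) ∈ s → (x, !b) ∉ s) →
    (∀ s ∈ T, ∀ t ∈ T, s ≠ t → ∃ x b, (x, b) ∈ s ∧ (x, !b) ∈ t) → T.Finite := by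
  classical
  induction n with
  | zero =>
    intro T h1 _ _
    refine Set.Finite.subset (Set.finite_singleton ∅) fun s hs => ?_
    exact Finset.card_eq_zero.mp (Nat.le_zero.mp (h1 s hs))
  | succ n ih =>
    intro T h1 h2 h3
    rcases T.eq_empty_or_nonempty with rfl | ⟨p, hp⟩
    · exact Set.finite_empty
    · have hsub : T ⊆ {p} ∪ ⋃ y ∈ p, {t ∈ T | (y.1, !y.2) ∈ t} := by
        intro t ht
        by_cases htp : t = p
        · exact Or.inl htp
        · obtain ⟨x, b, hb, hb'⟩ := h3 p hp t ht (Ne.symm htp)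
          exact Or.inr (Set.mem_biUnion hb ⟨ht, hb'⟩)
      refine Set.Finite.subset (Set.Finite.union (Set.finite_singleton p) ?_) hsub
      refine Set.Finite.biUnion (Finset.finite_toSet p) fun y _ => ?_
      have hinj : Set.InjOn (fun t : Finset (X × Bool) => t.erase (y.1, !y.2))
          {t ∈ T | (y.1, !y.2) ∈ t} := by
        intro t ht t' ht' htt
        simp only at htt
        rw [← Finset.insert_erase ht.2, htt, Finset.insert_erase ht'.2]
      refine Set.Finite.of_finite_image ?_ hinj
      apply ih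
      · rintro _ ⟨t, ht, rfl⟩
        simp only
        rw [Finset.card_erase_of_mem ht.2]
        have := h1 t ht.1
        omega
      · rintro _ ⟨t, ht, rfl⟩ x b hb hb'
        exact h2 t ht.1 x b (Finset.mem_of_mem_erase hb) (Finset.mem_of_mem_erase hb')
      · rintro _ ⟨t, ht, rfl⟩ _ ⟨t', ht', rfl⟩ hne
        have htt : t ≠ t' := fun h => hne (by rw [h])
        obtain ⟨x, b, hb, hb'⟩ := h3 t ht.1 t' ht'.1 htt
        refine ⟨x, b, Finset.mem_erase.mpr ⟨?_, hb⟩, Finset.mem_erase.mpr ⟨?_, hb'⟩⟩
        · intro h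
          rw [← h] at ht'
          exact h2 t' ht'.1 x b ht'.2 hb'
        · intro h
          have h4 : (x, b) = (y.1, y.2) := by
            have h5 := congrArg Prod.fst h
            have h6 := congrArg Prod.snd h
            simp only at h5 h6
            rw [h5, Bool.not_inj h6]
          have h7 := ht.2
          have h8 := congrArg Prod.fst h4
          have h9 := congrArg Prod.snd h4
          simp only at h8 h9
          rw [← h8, ← h9] at h7
          exact h2 t ht.1 x b hb h7

/-- the condition on `s` given by a colouring -/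
def colCond {X : Type} (s : Finset X) (k : {x // x ∈ s} → Bool) : Cohen X (KC Bool) :=
  ⟨s, ofCol k, inferInstance, k, isCol_ofCol k⟩

theorem colCond_col {X : Type} (s : Finset X) (k : {x // x ∈ s} → Bool) :
    IsCol (colCond s k).str k := isCol_ofCol _

theorem ccc_two (X : Type) : ¬ HasBigAntichain (Cohen X (KC Bool)) := by
  classical
  rintro ⟨I, p, hI, hp⟩
  have hcol : ∀ i, ∃ f : {x // x ∈ (p i).carrier} → Bool, IsCol (p i).str f :=
    fun i => (p i).mem.2
  choose f hf using hcol
  let G : I → Finset (X × Bool) := fun i =>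
    Finset.image (fun a : {x // x ∈ (p i).carrier} => ((a : X), f i a)) (p i).carrier.attach
  have hG : ∀ i x b, (x, b) ∈ G i ↔ ∃ h : x ∈ (p i).carrier, f i ⟨x, h⟩ = b := by
    intro i x b
    simp only [G, Finset.mem_image, Finset.mem_attach, true_and, Subtype.exists, Prod.mk.injEq]
    constructor
    · rintro ⟨a, ha, rfl, hb⟩
      exact ⟨ha, hb⟩
    · rintro ⟨h, hb⟩
      exact ⟨x, h, rfl, hb⟩
  have hfun : ∀ i x b, (x, b) ∈ G i → (x, !b) ∉ G i := by
    intro i x b h1 h2
    obtain ⟨h, h3⟩ := (hG i x b).mp h1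
    obtain ⟨h', h4⟩ := (hG i x (!b)).mp h2
    rw [h3] at h4
    cases b <;> simp at h4
  have hconf : ∀ i j, i ≠ j → ∃ x b, (x, b) ∈ G i ∧ (x, !b) ∈ G j := by
    intro i j hij
    by_contra hcon
    push Not at hcon
    apply hp i j hij
    have hagree : ∀ x (h : x ∈ (p i).carrier) (h' : x ∈ (p j).carrier),
        f i ⟨x, h⟩ = f j ⟨x, h'⟩ := by
      intro x h h'
      by_contra hne
      refine hcon x (f i ⟨x, h⟩) ((hG i x _).mpr ⟨h, rfl⟩) ((hG j x _).mpr ⟨h', ?_⟩)
      cases h1 : f i ⟨x, h⟩ <;> cases h2 : f j ⟨x, h'⟩ <;> simp_all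
    let k : {x // x ∈ (p i).carrier ∪ (p j).carrier} → Bool := fun a =>
      if h : (a : X) ∈ (p i).carrier then f i ⟨a, h⟩ else
        f j ⟨a, (Finset.mem_union.mp a.2).resolve_left h⟩
    refine ⟨colCond ((p i).carrier ∪ (p j).carrier) k, ⟨mkEmb (hf i) (colCond_col _ k)
      ⟨fun a => ⟨a, Finset.mem_union_left _ a.2⟩, ?_⟩ ?_,
      fun _ => rfl⟩, ⟨mkEmb (hf j) (colCond_col _ k)
      ⟨fun a => ⟨a, Finset.mem_union_right _ a.2⟩, ?_⟩ ?_, fun _ => rfl⟩⟩
    · intro a b hab
      exact Subtype.ext (congrArg (fun z => (z.1 : X)) hab)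
    · intro a
      change k ⟨a, _⟩ = _
      simp only [k, dif_pos a.2]
    · intro a b hab
      exact Subtype.ext (congrArg (fun z => (z.1 : X)) hab)
    · intro a
      change k ⟨a, _⟩ = _
      simp only [k]
      split_ifs with h
      · exact hagree a h a.2
      · rfl
  have hGinj : Function.Injective G := by
    intro i j hij
    by_contra hne
    obtain ⟨x, b, h1, h2⟩ := hconf i j hne
    rw [← hij] at h2
    exact hfun i x b h1 h2
  have hfin : ∀ n, (G '' {i | (G i).card ≤ n}).Finite := by
    intro n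
    apply finite_of_conflict n
    · rintro _ ⟨i, hi, rfl⟩
      exact hi
    · rintro _ ⟨i, _, rfl⟩
      exact hfun i
    · rintro _ ⟨i, _, rfl⟩ _ ⟨j, _, rfl⟩ hne
      exact hconf i j fun h => hne (by rw [h])
  have hcount : (Set.univ : Set I).Countable := by
    have : (Set.univ : Set I) = ⋃ n : ℕ, {i | (G i).card ≤ n} := by
      ext i
      simp only [Set.mem_univ, Set.mem_iUnion, true_iff]
      exact ⟨(G i).card, le_refl (G i).card⟩
    rw [this]
    refine Set.countable_iUnion fun n => ?_
    exact (Set.Finite.of_finite_image (hfin n) hGinj.injOn).countable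
  exact (not_countable_iff.mpr hI) (Set.countable_univ_iff.mp hcount)

/-- For every uncountable set `X` there are non-trivial strong Fraisse classes `K₀`, `K₁` in
relational languages, each having at most `|X|` isomorphism types, such that `Cohen_X(K₀)` and
`Cohen_X(K₁)` are not forcing equivalent.  So Q1 is false. -/
theorem result :
    (∀ X : Type, Uncountable X →
      ∃ (L₀ L₁ : FirstOrder.Language.{0, 0}) (_ : L₀.IsRelational) (_ : L₁.IsRelational)
        (K₀ : StrClass L₀) (K₁ : StrClass L₁),
        StrongFraisse K₀ ∧ StrongFraisse K₁ ∧ ¬ IsTrivial K₀ ∧ ¬ IsTrivial K₁ ∧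
        FewTypes K₀ X ∧ FewTypes K₁ X ∧ ¬ ForcingEquivalent (Cohen X K₀) (Cohen X K₁)) ∧
    ¬ (∀ (X : Type) (_ : Infinite X) (L₀ L₁ : FirstOrder.Language.{0, 0}) (_ : L₀.IsRelational)
        (_ : L₁.IsRelational) (K₀ : StrClass L₀) (K₁ : StrClass L₁),
        StrongFraisse K₀ → StrongFraisse K₁ → ¬ IsTrivial K₀ → ¬ IsTrivial K₁ →
        FewTypes K₀ X → FewTypes K₁ X → ForcingEquivalent (Cohen X K₀) (Cohen X K₁)) := by
  have main : ∀ X : Type, Uncountable X →
      ∃ (L₀ L₁ : FirstOrder.Language.{0, 0}) (_ : L₀.IsRelational) (_ : L₁.IsRelational)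
        (K₀ : StrClass L₀) (K₁ : StrClass L₁),
        StrongFraisse K₀ ∧ StrongFraisse K₁ ∧ ¬ IsTrivial K₀ ∧ ¬ IsTrivial K₁ ∧
        FewTypes K₀ X ∧ FewTypes K₁ X ∧ ¬ ForcingEquivalent (Cohen X K₀) (Cohen X K₁) := by
    intro X hX
    have : Infinite X := inferInstance
    obtain ⟨a, b, hab⟩ := exists_pair_ne X
    obtain ⟨s, hs⟩ := exists_surj_list X X le_rfl
    obtain ⟨s', hs'⟩ := exists_surj_list Bool X
      ((Cardinal.lt_aleph0_of_finite Bool).le.trans (Cardinal.aleph0_le_mk X))
    refine ⟨LC X, LC Bool, inferInstance, inferInstance, KC X, KC Bool, strongFraisse_KC X,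
      strongFraisse_KC Bool, nontrivial_KC X a b hab, nontrivial_KC Bool true false (by decide),
      fewTypes_KC X X s hs, fewTypes_KC Bool X s' hs', ?_⟩
    rintro ⟨e⟩
    exact ccc_two X (bigAntichain_of_bigDisjoint
      (bigDisjoint_iso e (bigDisjoint_of_bigAntichain (bigAntichain_KC X))))
  refine ⟨main, fun h => ?_⟩
  have hunc : Uncountable ℝ := Cardinal.aleph0_lt_mk_iff.mp (by
    rw [Cardinal.mk_real]
    exact Cardinal.aleph0_lt_continuum)
  obtain ⟨L₀, L₁, r₀, r₁, K₀, K₁, h1, h2, h3, h4, h5, h6, h7⟩ := main ℝ hunc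
  exact h7 (h ℝ inferInstance L₀ L₁ r₀ r₁ K₀ K₁ h1 h2 h3 h4 h5 h6)

end Pool.Agent.Results.MP_01c350_lc.UncountableCounterexample
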